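import Pool.Agent.Helper91.PU.Main

/-!
All projective sets have the Baire property if and only if projective relations have Borel
uniformizations up to meager sets for fat sections (singletons, closed sections, G delta sections,
sections with an isolated point, nonmeager sections).
-/

set_option autoImplicit false

namespace Pool.Agent.Results.MP_5ce1ed_lc.FatSections

open Pool.Agent.Helper91.PU

theorem result :
    List.TFAE [PB,
      Unif fun S => ∃ y, S = {y},
      Unif TwoSets,
      Unif fun S => IsClosed S ∧ S.Nonempty,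
      Unif fun S => IsGδ S ∧ S.Nonempty,
      Unif Iso,
      Unif fun S => ¬ IsMeagre S,
      Unif Fat] ∧
    (PB → ∀ R : Set (Bs × Bs), Proj (Bs × Bs) R →
      ((∃ f : Bs → Bs, Measurable f ∧
          ∀ᶠ x in residual Bs, x ∈ Prod.fst '' R → (x, f x) ∈ R) ↔
        ∃ Q : ℕ → Set (Bs × Bs), (∀ n, Proj (Bs × Bs) (Q n)) ∧ (∀ n, Q n ⊆ R) ∧
          ∀ᶠ x in residual Bs, x ∈ Prod.fst '' R → ∃ n, Fat (sec (Q n) x))) :=
  ⟨tfae_unif, fun h _ hR => unif_iff h hR⟩

end Pool.Agent.Results.MP_5ce1ed_lc.FatSections
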