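import Pool.Agent.Helper73.GF.Main

/-!
# Q1 as a question about the determinacy of one family of games

`Bs` is the Baire space, `Proj` the class of projective sets, `sec R x` the section of `R` over `x`, `PB` the hypothesis of
Q1 (all projective subsets of `Bs` have the Baire property); `UM` is the conclusion of Q1.

In the game `G(R)`, `R` a subset of `Bs × Bs`, two players play nonempty finite sequences in turn, which form a point `x`;
in each round the second player also plays a number, and these numbers form a point `y`; the second player wins if
`(x, y) ∈ R` (the unfolded Banach-Mazur game of the projection of `R`). The hypothesis of Q1 says that `G(R)` is determined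
for all projective `R` with closed sections, or for all cylinders, the conclusion that it is determined for all
projective `R`.
-/

set_option autoImplicit false

namespace Pool.Agent.Results.MP_5ce1ed_lc.GameForm

open Set Filter Topology Pool.Agent.Helper91.PU Pool.Agent.Helper73.GF

/-- (1) The hypothesis of Q1: all projective sets have the Baire property. (2) The conclusion of
Q1: projective uniformization up to meager sets. -/
theorem result :
    -- (1)
    ((PB ↔ ∀ A : Set Bs, Proj Bs A → Determined {p | p.1 ∈ A}) ∧
      (PB ↔ ∀ R : Set (Bs × Bs), Proj (Bs × Bs) R → (∀ x, IsClosed (sec R x)) → Determined R)) ∧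
    -- (2)
    (UM ↔ ∀ R : Set (Bs × Bs), Proj (Bs × Bs) R → Determined R) ∧
    (UM ↔ PB ∧ ∀ R : Set (Bs × Bs), Proj (Bs × Bs) R → (∀ x, Tail (sec R x)) →
      (∀ᶠ x in residual Bs, IsMeagre (sec R x)) → Uz R) :=
  main

end Pool.Agent.Results.MP_5ce1ed_lc.GameForm
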