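import Pool.Agent.Helper81.UP.Small

/-!
If all projective sets have the Baire property, then the small sections of a projective relation
are captured by one fixed sequence and a Borel function.
-/

set_option autoImplicit false

namespace Pool.Agent.Results.MP_5ce1ed_lc.SmallSections

open Set Filter Topology Pool.Agent.Helper91.PU Pool.Agent.Helper81.UP

theorem result (hPB : PB) (U : ℕ → ℕ → Set (Bs × Bs)) (hU : ∀ i k, MeasurableSet (U i k))
    (R : Set (Bs × Bs)) (hR : Proj (Bs × Bs) R)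
    (h : ∀ᶠ x in residual Bs, (∃ s f : ℕ → ℕ, Capt U x (sec R x) s f) ∨
      ((sec R x).Countable ∧ ∀ y ∈ sec R x, ∀ i, ∃ k, (x, y) ∈ U i k)) :
    ∃ s : ℕ → ℕ, ∃ f : Bs → ℕ → ℕ, Measurable f ∧ ∀ᶠ x in residual Bs,
      Capt U x (sec R x) s (f x) ∧ ((sec R x).Nonempty →
        ∃ y ∈ sec R x, ∀ n, ∃ i, n ≤ i ∧ i < f x n ∧ (x, y) ∈ U i (s i)) :=
  capt_final hPB hU hR h

end Pool.Agent.Results.MP_5ce1ed_lc.SmallSections
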