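import Pool.Agent.Helper83.UMC.Add

/-!
Projective uniformization up to meager sets and projective sets without perfect subsets.
-/

set_option autoImplicit false

namespace Pool.Agent.Results.MP_5ce1ed_lc.ThinSets

open Set Filter Topology MeasureTheory Cardinal Pool.Agent.Helper91.PU Pool.Agent.Helper83.UMC

theorem result :
    (UM → ∀ n, UMPi n) ∧
    ∀ (n : ℕ) (D : Set Bs), 1 ≤ n → Sig n Bs D →
      (UMPi n → ¬ D.Countable → ∀ ε : ℕ → ℝ, (∀ k, 0 < ε k) →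
        ∃ a : ℕ → Bs → ℝ, (∀ k, Continuous (a k)) ∧
          ∀ r : ℝ, ∃ d ∈ D, ∃ᶠ k in atTop, |r - a k d| < ε k) ∧
      (UMPi (n + 1) →
        List.TFAE [
          ∀ P ⊆ D, Perfect P → P = ∅,
          ∀ g : Bs → ℝ, Measurable g → SMZ (g '' D),
          ∀ M : Set (Bs × Bs), Sig n (Bs × Bs) M → (∀ d ∈ D, IsMeagre {x | (x, d) ∈ M}) →
            IsMeagre {x | ∃ d ∈ D, (x, d) ∈ M},
          ∀ ε : ℕ → ℝ, (∀ k, 0 < ε k) → ∃ a : ℕ → Bs → ℝ, (∀ k, Continuous (a k)) ∧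
            ∀ r : ℝ, {d | d ∈ D ∧ ¬ ∃ᶠ k in atTop, |r - a k d| < ε k}.Countable] ∧
        ((∀ P ⊆ D, Perfect P → P = ∅) → ¬ D.Countable →
          (∀ Y : Set ℝ, #Y < #D → SMZ Y) ∧
          (∃ F : Set (Set ℝ), #F ≤ ℵ₁ ∧ (∀ N ∈ F, volume N = 0) ∧ ⋃₀ F = Set.univ) ∧
          ∃ A : Set ℝ, Sig n ℝ A ∧ ¬ NullMeasurableSet A volume)) := by
  refine ⟨UM.toPi, fun n D hn hD => ?_⟩
  obtain ⟨m, rfl⟩ : ∃ m, n = m + 1 := ⟨n - 1, by omega⟩
  refine ⟨fun h hunc ε hε => guess_any h hD hunc hε, fun h => ⟨?_, fun hthin hunc => ?_⟩⟩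
  · tfae_have 1 → 4 := fun hthin ε hε => guess_thin h hD hthin hε
    tfae_have 4 → 1 := thin_of_guess
    tfae_have 1 → 3 := fun hthin M hM hm => thin_additive h hD hthin hM hm
    tfae_have 3 → 2 := fun h3 g hg => smz_of_additive h3 hg
    tfae_have 2 → 1 := thin_of_smz
    tfae_finish
  · exact ⟨fun Y hY ε hε => small_smz h hD hthin hunc hY hε, cover_thin h hD hthin hunc,
      not_measurable h hD hthin hunc⟩

end Pool.Agent.Results.MP_5ce1ed_lc.ThinSets
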